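import Pool.Agent.Helper63.GB2.Defs

/-!
# MP_02f2ca_gt, dimension two : the cyclic lamplighter (module B10)
-/

open Set MeasureTheory Filter Topology

namespace GB

/-- fibres of a map to `Fin (M + 1)` which is equivariant for the rotation -/
private theorem fiber_card {α : Type*} [Fintype α] [DecidableEq α] (M : ℕ)
    (f : α → Fin (M + 1)) (σ : α ≃ α) (h : ∀ x, f (σ x) = f x + 1) (c : Fin (M + 1)) :
    (M + 1) * (Finset.univ.filter fun x => f x = c).card = Fintype.card α := by
  have hstep : ∀ c : Fin (M + 1), (Finset.univ.filter fun x => f x = c + 1).card =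
      (Finset.univ.filter fun x => f x = c).card := by
    intro c
    symm
    refine Finset.card_bij (fun x _ => σ x) ?_ ?_ ?_
    · intro x hx
      simp only [Finset.mem_filter, Finset.mem_univ, true_and] at hx ⊢
      rw [h, hx]
    · intro x _ y _ hxy
      exact σ.injective hxy
    · intro y hy
      simp only [Finset.mem_filter, Finset.mem_univ, true_and] at hy
      refine ⟨σ.symm y, ?_, by simp⟩
      simp only [Finset.mem_filter, Finset.mem_univ, true_and]
      have := h (σ.symm y)
      rw [Equiv.apply_symm_apply, hy] at this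
      exact (add_right_cancel this).symm
  have hall : ∀ c : Fin (M + 1), (Finset.univ.filter fun x => f x = c).card =
      (Finset.univ.filter fun x => f x = 0).card := by
    intro c
    induction c using Fin.induction with
    | zero => rfl
    | succ i ih =>
      rw [← Fin.coeSucc_eq_succ, hstep, ih]
  have hsum := Finset.card_eq_sum_card_fiberwise (s := (Finset.univ : Finset α))
    (t := (Finset.univ : Finset (Fin (M + 1)))) (f := f) (fun x _ => by simp)
  rw [Finset.card_univ] at hsum
  rw [hsum, Finset.sum_congr rfl (fun c _ => hall c), Finset.sum_const, Finset.card_univ,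
    Fintype.card_fin, smul_eq_mul, hall c]

/-- rotation of one entry of a function -/
private def rot {κ : Type*} [DecidableEq κ] (M : ℕ) (k : κ) :
    (κ → Fin (M + 1)) ≃ (κ → Fin (M + 1)) :=
  Equiv.piCongrRight fun i => if i = k then finRotate (M + 1) else Equiv.refl _

private theorem rot_self {κ : Type*} [DecidableEq κ] (M : ℕ) (k : κ) (c : κ → Fin (M + 1)) :
    rot M k c k = c k + 1 := by
  simp [rot]

private theorem rot_coe {κ : Type*} [DecidableEq κ] (M : ℕ) (k : κ) (c : κ → Fin (M + 1))
    (hk : c k ≠ Fin.last M) (i : κ) :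
    ((rot M k c i : Fin (M + 1)) : ℕ) = (c i : ℕ) + if i = k then 1 else 0 := by
  by_cases hi : i = k
  · subst hi
    rw [rot_self, if_pos rfl]
    exact Fin.val_add_one_of_lt (lt_of_le_of_ne (Fin.le_last _) hk)
  · simp [rot, hi]

theorem lamp_move {ι : Type} [Fintype ι] [DecidableEq ι] (M : ℕ) (hM : 2 ≤ M) (j : ι) :
    ∃ (μ : Lamp ι M ≃ Lamp ι M) (bad : Finset (Lamp ι M)),
      M * bad.card ≤ 2 * Fintype.card (Lamp ι M) ∧
      ∀ x ∉ bad, ∀ ρ a : ι → ℂ, (∀ i, ‖ρ i‖ = 1) →
        lq ρ (μ x).1 = ρ j * lq ρ x.1 ∧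
        lh ρ a (μ x).2 = lh ρ a x.2 + (lq ρ (μ x).1)⁻¹ * a j := by
  obtain ⟨M, rfl⟩ : ∃ m, M = m + 1 := ⟨M - 1, by omega⟩
  refine ⟨Equiv.prodShear (rot M j) (fun J => rot M (j, rot M j J)),
    (Finset.univ.filter fun x : Lamp ι (M + 1) => x.1 j = Fin.last M) ∪
      (Finset.univ.filter fun x : Lamp ι (M + 1) => x.2 (j, rot M j x.1) = Fin.last M), ?_, ?_⟩
  · have h1 := fiber_card (α := Lamp ι (M + 1)) M (fun x => x.1 j)
      (Equiv.prodCongr (rot M j) (Equiv.refl _)) (fun x => rot_self M j x.1) (Fin.last M)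
    have h2 := fiber_card (α := Lamp ι (M + 1)) M (fun x => x.2 (j, rot M j x.1))
      (Equiv.prodShear (Equiv.refl _) (fun J => rot M (j, rot M j J)))
      (fun x => rot_self M (j, rot M j x.1) x.2) (Fin.last M)
    have h3 := Finset.card_union_le
      (Finset.univ.filter fun x : Lamp ι (M + 1) => x.1 j = Fin.last M)
      (Finset.univ.filter fun x : Lamp ι (M + 1) => x.2 (j, rot M j x.1) = Fin.last M)
    have h4 := Nat.mul_le_mul_left (M + 1) h3
    rw [mul_add, h1, h2] at h4
    rw [two_mul]
    exact h4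
  · intro x hx ρ a _
    simp only [Finset.mem_union, Finset.mem_filter, Finset.mem_univ, true_and, not_or] at hx
    obtain ⟨hx1, hx2⟩ := hx
    have e1 : (Equiv.prodShear (rot M j) (fun J => rot M (j, rot M j J)) x).1 = rot M j x.1 := rfl
    have e2 : (Equiv.prodShear (rot M j) (fun J => rot M (j, rot M j J)) x).2 =
      rot M (j, rot M j x.1) x.2 := rfl
    rw [e1, e2]
    constructor
    · unfold lq
      simp_rw [rot_coe M j x.1 hx1, pow_add]
      rw [Finset.prod_mul_distrib, mul_comm]
      congr 1
      have : ∀ i, ρ i ^ (if i = j then 1 else 0) = if i = j then ρ i else 1 := by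
        intro i
        split_ifs <;> simp
      simp_rw [this]
      rw [Finset.prod_ite_eq' Finset.univ j ρ, if_pos (Finset.mem_univ j)]
    · unfold lh
      simp_rw [rot_coe M (j, rot M j x.1) x.2 hx2]
      have : ∀ k : ι × (ι → Fin (M + 1)),
          ((((x.2 k : ℕ) + if k = (j, rot M j x.1) then 1 else 0 : ℕ)) : ℂ) *
            ((lq ρ k.2)⁻¹ * a k.1) =
          ((x.2 k : ℕ) : ℂ) * ((lq ρ k.2)⁻¹ * a k.1) +
            if k = (j, rot M j x.1) then ((lq ρ k.2)⁻¹ * a k.1) else 0 := by
        intro k
        split_ifs with hk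
        · push_cast; ring
        · push_cast; ring
      simp_rw [this]
      rw [Finset.sum_add_distrib, Finset.sum_ite_eq' Finset.univ (j, rot M j x.1)
        (fun k => (lq ρ k.2)⁻¹ * a k.1), if_pos (Finset.mem_univ _)]

end GB
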